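import Pool.Agent.Helper553.Orth.Final

set_option autoImplicit false
open MeasureTheory ProbabilityTheory Filter Topology Set Polynomial

namespace Pool.Agent.Results.MP_f6b137_pr.VarianceNoLimit

/-- `p` is the sequence of orthonormal polynomials of `ν`: `p k` has degree exactly `k` and
positive leading coefficient, and the integral of `p j * p k` is the Kronecker delta. -/
def IsOrthonormalSeq (ν : Measure ℝ) (p : ℕ → ℝ[X]) : Prop :=
  (∀ k, (p k).natDegree = k ∧ 0 < (p k).leadingCoeff) ∧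
    ∀ j k, ∫ x, (p j).eval x * (p k).eval x ∂ν = if j = k then 1 else 0

/-- The number of (distinct) real zeros of `P_n = ∑ k ≤ n, a k * p k`. -/
noncomputable def realZeroCount {Ω : Type} (p : ℕ → ℝ[X]) (a : ℕ → Ω → ℝ) (n : ℕ) (ω : Ω) : ℝ :=
  ((∑ k ∈ Finset.range (n + 1), C (a k ω) * p k).roots.toFinset.card : ℝ)

/-- There is a finite Borel measure on the line, absolutely continuous with support `[0, 1]`,
such that for its orthonormal polynomials and any i.i.d. standard Gaussian coefficients the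
variance of the number of real zeros of `P_n`, divided by `n`, is unbounded; in particular it
does not converge to any constant. -/
theorem result : ∃ ν : Measure ℝ, IsFiniteMeasure ν ∧ ν ≪ volume ∧ ν.support = Icc 0 1 ∧
    (∃ p : ℕ → ℝ[X], IsOrthonormalSeq ν p) ∧
    ∀ p : ℕ → ℝ[X], IsOrthonormalSeq ν p →
      ∀ (Ω : Type) (_ : MeasurableSpace Ω) (μ : Measure Ω) (_ : IsProbabilityMeasure μ)
        (a : ℕ → Ω → ℝ), (∀ k, HasLaw (a k) (gaussianReal 0 1) μ) → iIndepFun a μ →
        (∀ (K : ℝ) (n0 : ℕ), ∃ n : ℕ, n0 ≤ n ∧ K < Var[realZeroCount p a n; μ] / n) ∧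
        ¬ ∃ c : ℝ, Tendsto (fun n : ℕ => Var[realZeroCount p a n; μ] / n) atTop (𝓝 c) := by
  obtain ⟨f, hf, hf0, hgood, hJ⟩ := Helper553.Orth.exists_generic
  have hU := Helper553.Orth.dens_UMeas hf
  have hJ01 : 0 < Helper553.Orth.mJ 0 1 f := by
    have h := hJ 0 1 le_rfl one_pos le_rfl
    push_cast at h
    exact h
  refine ⟨Helper553.Orth.dens f, hU.fin, Helper553.Orth.dens_ac f,
    Helper553.Orth.dens_support hf hf0 hJ, ?_, ?_⟩
  · obtain ⟨p, hp1, hp2⟩ :=
      Helper553.Orth.exists_orthonormal hU (Helper553.Orth.dens_posF hf hf0 hJ01)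
    exact ⟨p, hp1, hp2⟩
  · intro p hp Ω _ μ _ a hlaw hind
    have key : ∀ (K : ℝ) (n0 : ℕ), ∃ n : ℕ, n0 ≤ n ∧ K < Var[realZeroCount p a n; μ] / n :=
      Helper553.Orth.variance_unbounded hf hf0 hgood hp.1 hp.2 μ a hlaw hind
    refine ⟨key, ?_⟩
    rintro ⟨c, hc⟩
    have hev : ∀ᶠ n : ℕ in atTop, Var[realZeroCount p a n; μ] / n < c + 1 :=
      hc.eventually (gt_mem_nhds (by linarith))
    obtain ⟨n0, hn0⟩ := eventually_atTop.mp hev
    obtain ⟨n, hn, hlt⟩ := key (c + 1) n0
    exact lt_asymm hlt (hn0 n hn)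

end Pool.Agent.Results.MP_f6b137_pr.VarianceNoLimit
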